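import Pool.Agent.Work.MP_2738db_nt_Y.Interface4
import Pool.Agent.Work.MP_2738db_nt_A_helper83.TLG

/-!
Block TLN of Theorem Y for the Fermat-Catalan conjecture: two logarithms over a number field.
-/

set_option autoImplicit false

namespace Pool.Agent.Work.MP_2738db_nt_Y.helper76

open Pool.Agent.Work.MP_2738db_nt_Y
open Finset NumberField
open Pool.Agent.Work.MP_2738db_nt_A (HB)

theorem tln (hTlk : Pool.Agent.Work.MP_2738db_nt_A.Stmt_Tlk) : Stmt_Tln := by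
  intro K _ _ P x₁ x₂ y₁ y₂ l M A B D Q hP hP0 hx₁ hx₂ hy₁ hy₂ hnd hM hD hKD hQ hA hB hyA₁ hyA₂
    hxB₁ hxB₂ hbig
  have hlog : 0 ≤ Real.log l := Real.log_natCast_nonneg l
  have h2 := Pool.Agent.Work.MP_2738db_nt_A.helper83.two_le_norm P hP hP0
  have hQ2 : 2 ≤ Q := by
    have : (2 : ℝ) ≤ (Ideal.absNorm P : ℝ) := by exact_mod_cast h2
    linarith
  have hnn : 0 ≤ D ^ 2 * (Q * B) * (1 + Real.log l) := by positivity
  have h := Pool.Agent.Work.MP_2738db_nt_A.helper83.core hTlk K P x₁ x₂ y₁ y₂ l M A B D Q hP hP0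
    hx₁ hx₂ hy₁ hy₂ hnd hM hD hKD hQ hA hB hyA₁ hyA₂ hxB₁ hxB₂ (by nlinarith)
  refine h.trans ?_
  have hnn2 : 0 ≤ D ^ 4 * (Q ^ 2 * A * B) * (1 + Real.log l) ^ 2 := by positivity
  nlinarith

end Pool.Agent.Work.MP_2738db_nt_Y.helper76
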