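import Pool.Agent.Work.MP_2738db_nt_Y.Interface2

/-!
Block GFAC of Theorem Y for the Fermat-Catalan conjecture: sums of two squares that are powers.
-/

set_option autoImplicit false

namespace Pool.Agent.Work.MP_2738db_nt_Y.helper76

open Pool.Agent.Work.MP_2738db_nt_Y

lemma odd_of_sq_add_sq {A B c k : ℕ} (hAB : Nat.Coprime A B) (hk : 2 ≤ k)
    (h : A ^ 2 + B ^ 2 = c ^ k) : Odd c := by
  by_contra hc
  rw [Nat.not_odd_iff_even] at hc
  obtain ⟨m, hm⟩ := hc
  have h4 : 4 ∣ c ^ k := by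
    have h1 : c ^ 2 ∣ c ^ k := pow_dvd_pow c hk
    have h2 : 4 ∣ c ^ 2 := ⟨m ^ 2, by rw [hm]; ring⟩
    exact h2.trans h1
  rw [← h] at h4
  rcases Nat.even_or_odd' A with ⟨a, ha | ha⟩ <;> rcases Nat.even_or_odd' B with ⟨b, hb | hb⟩
  · have h2 : 2 ∣ Nat.gcd A B := Nat.dvd_gcd ⟨a, ha⟩ ⟨b, hb⟩
    rw [hAB] at h2
    omega
  · obtain ⟨r, hr⟩ := h4
    have h3 : A ^ 2 + B ^ 2 = 4 * (a ^ 2 + b ^ 2 + b) + 1 := by rw [ha, hb]; ring
    omega
  · obtain ⟨r, hr⟩ := h4
    have h3 : A ^ 2 + B ^ 2 = 4 * (a ^ 2 + b ^ 2 + a) + 1 := by rw [ha, hb]; ring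
    omega
  · obtain ⟨r, hr⟩ := h4
    have h3 : A ^ 2 + B ^ 2 = 4 * (a ^ 2 + b ^ 2 + a + b) + 2 := by rw [ha, hb]; ring
    omega

theorem gfac : Stmt_Gfac := by
  intro A B c k hAB hA hB hk h
  have hc : Odd c := odd_of_sq_add_sq hAB hk h
  have hk0 : k ≠ 0 := by omega
  let z : GaussianInt := ⟨A, B⟩
  have hnorm : z.norm = (A : ℤ) ^ 2 + (B : ℤ) ^ 2 := by
    rw [Zsqrtd.norm_def]; simp only [z]; ring
  have hprod : z * star z = (c : GaussianInt) ^ k := by
    have h1 : ((c : ℕ) : GaussianInt) ^ k = (((A : ℤ) ^ 2 + (B : ℤ) ^ 2 : ℤ) : GaussianInt) := by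
      have h2 : (((A : ℤ) ^ 2 + (B : ℤ) ^ 2 : ℤ) : GaussianInt) = ((A ^ 2 + B ^ 2 : ℕ) : GaussianInt) := by
        push_cast; ring
      rw [h2, h]; push_cast; ring
    rw [h1, ← hnorm, ← Zsqrtd.norm_eq_mul_conj]
  have hcop : IsCoprime z (star z) := by
    obtain ⟨r, s, hrs⟩ := Nat.isCoprime_iff_coprime.mpr hAB
    obtain ⟨m, hm⟩ := hc.pow (n := k)
    let i : GaussianInt := ⟨0, 1⟩
    have h2 : ((r : GaussianInt) - (s : GaussianInt) * i) * z +
        ((r : GaussianInt) + (s : GaussianInt) * i) * star z = 2 := by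
      have h3 : (2 : GaussianInt) = ((2 * (r * A + s * B) : ℤ) : GaussianInt) := by
        rw [hrs]; norm_num
      rw [h3]
      ext
      · simp [z, i]; ring
      · simp [z, i]; ring
    have h4 : z * star z = 2 * (m : GaussianInt) + 1 := by
      rw [hprod]
      have h5 : ((c ^ k : ℕ) : GaussianInt) = ((2 * m + 1 : ℕ) : GaussianInt) := by rw [hm]
      push_cast at h5
      exact h5
    refine ⟨star z - (m : GaussianInt) * ((r : GaussianInt) - (s : GaussianInt) * i),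
      - (m : GaussianInt) * ((r : GaussianInt) + (s : GaussianInt) * i), ?_⟩
    linear_combination h4 - (m : GaussianInt) * h2
  obtain ⟨d, ε, hd⟩ := exists_associated_pow_of_mul_eq_pow' hcop hprod
  obtain ⟨u, v⟩ := d
  have hεn : ((ε : GaussianIntˣ) : GaussianInt).norm = 1 :=
    (Zsqrtd.norm_eq_one_iff' (by norm_num) _).mpr ε.isUnit
  have hnd : (⟨u, v⟩ : GaussianInt).norm = u ^ 2 + v ^ 2 := by
    rw [Zsqrtd.norm_def]; ring
  have hnp : (u ^ 2 + v ^ 2) ^ k = (c : ℤ) ^ k := by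
    have h1 : z.norm = (⟨u, v⟩ : GaussianInt).norm ^ k := by
      rw [← hd, Zsqrtd.norm_mul, hεn, mul_one]
      exact map_pow Zsqrtd.normMonoidHom _ k
    rw [hnorm, hnd] at h1
    rw [← h1]
    exact_mod_cast h
  have hn : u ^ 2 + v ^ 2 = (c : ℤ) :=
    (pow_left_inj₀ (by positivity) (by positivity) hk0).mp hnp
  have hodd : Odd (u ^ 2 + v ^ 2) := by rw [hn]; exact_mod_cast hc
  have hgcd : IsCoprime u v := by
    rw [Int.isCoprime_iff_gcd_eq_one]
    have h1 : ((Int.gcd u v : ℤ) : GaussianInt) ∣ (⟨u, v⟩ : GaussianInt) := by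
      rw [Zsqrtd.intCast_dvd]
      exact ⟨Int.gcd_dvd_left _ _, Int.gcd_dvd_right _ _⟩
    have h2 : ((Int.gcd u v : ℤ) : GaussianInt) ∣ z := by
      rw [← hd]
      exact Dvd.dvd.mul_right (h1.trans (dvd_pow_self _ hk0)) _
    rw [Zsqrtd.intCast_dvd] at h2
    obtain ⟨h3, h4⟩ := h2
    simp only [z] at h3 h4
    have h5 : Int.gcd u v ∣ Nat.gcd A B :=
      Nat.dvd_gcd (Int.natCast_dvd_natCast.mp h3) (Int.natCast_dvd_natCast.mp h4)
    rw [hAB] at h5
    exact Nat.dvd_one.mp h5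
  have hc2 : 2 ≤ c := by
    rcases Nat.lt_or_ge c 2 with h1 | h1
    · exfalso
      have h2 : c ^ k ≤ 1 := by
        interval_cases c
        · rw [zero_pow hk0]; norm_num
        · rw [one_pow]
      have h3 : 1 ≤ A ^ 2 := Nat.one_le_pow _ _ hA
      have h4 : 1 ≤ B ^ 2 := Nat.one_le_pow _ _ hB
      omega
    · exact h1
  have hu0 : u ≠ 0 := by
    intro h0
    rw [h0, isCoprime_zero_left, Int.isUnit_iff] at hgcd
    rw [h0] at hn
    have : (c : ℤ) = 1 := by rcases hgcd with h1 | h1 <;> rw [← hn, h1] <;> norm_num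
    omega
  have hv0 : v ≠ 0 := by
    intro h0
    rw [h0, isCoprime_zero_right, Int.isUnit_iff] at hgcd
    rw [h0] at hn
    have : (c : ℤ) = 1 := by rcases hgcd with h1 | h1 <;> rw [← hn, h1] <;> norm_num
    omega
  refine ⟨u, v, hgcd, hu0, hv0, hodd, hn, ?_⟩
  set w : GaussianInt := (⟨u, v⟩ : GaussianInt) ^ k with hw
  obtain ⟨e1, e2, he⟩ : ∃ e1 e2 : ℤ, ((ε : GaussianIntˣ) : GaussianInt) = ⟨e1, e2⟩ :=
    ⟨_, _, rfl⟩
  have he1 : e1 ^ 2 + e2 ^ 2 = 1 := by
    rw [he, Zsqrtd.norm_def] at hεn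
    simp only at hεn
    nlinarith
  rw [he] at hd
  have hre : w.re * e1 - w.im * e2 = (A : ℤ) := by
    have := congrArg Zsqrtd.re hd
    simp only [Zsqrtd.re_mul, z] at this
    linarith
  have him : w.re * e2 + w.im * e1 = (B : ℤ) := by
    have := congrArg Zsqrtd.im hd
    simp only [Zsqrtd.im_mul, z] at this
    linarith
  have hA0 : (0 : ℤ) ≤ A := by positivity
  have hB0 : (0 : ℤ) ≤ B := by positivity
  have he1' : e1 ^ 2 ≤ 1 := by nlinarith [sq_nonneg e2]
  have h1 : e1 ≤ 1 := by nlinarith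
  have h2 : -1 ≤ e1 := by nlinarith
  have h12 : e1 = -1 ∨ e1 = 0 ∨ e1 = 1 := by omega
  rcases h12 with h3 | h3 | h3
  · left
    have h4 : e2 = 0 := by
      rw [h3] at he1
      have : e2 ^ 2 = 0 := by linarith
      exact pow_eq_zero_iff (two_ne_zero) |>.mp this
    rw [h3, h4] at hre him
    constructor
    · rw [← abs_of_nonneg hA0, ← hre]
      rw [show w.re * -1 - w.im * 0 = -w.re by ring, abs_neg]
    · rw [← abs_of_nonneg hB0, ← him]
      rw [show w.re * 0 + w.im * -1 = -w.im by ring, abs_neg]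
  · right
    have h4 : e2 = 1 ∨ e2 = -1 := by
      rw [h3] at he1
      have h5 : (e2 - 1) * (e2 + 1) = 0 := by linarith
      rcases mul_eq_zero.mp h5 with h6 | h6
      · left; linarith
      · right; linarith
    rcases h4 with h4 | h4
    · rw [h3, h4] at hre him
      constructor
      · rw [← abs_of_nonneg hA0, ← hre]
        rw [show w.re * 0 - w.im * 1 = -w.im by ring, abs_neg]
      · rw [← abs_of_nonneg hB0, ← him]
        rw [show w.re * 1 + w.im * 0 = w.re by ring]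
    · rw [h3, h4] at hre him
      constructor
      · rw [← abs_of_nonneg hA0, ← hre]
        rw [show w.re * 0 - w.im * -1 = w.im by ring]
      · rw [← abs_of_nonneg hB0, ← him]
        rw [show w.re * -1 + w.im * 0 = -w.re by ring, abs_neg]
  · left
    have h4 : e2 = 0 := by
      rw [h3] at he1
      have : e2 ^ 2 = 0 := by linarith
      exact pow_eq_zero_iff (two_ne_zero) |>.mp this
    rw [h3, h4] at hre him
    constructor
    · rw [← abs_of_nonneg hA0, ← hre]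
      rw [show w.re * 1 - w.im * 0 = w.re by ring]
    · rw [← abs_of_nonneg hB0, ← him]
      rw [show w.re * 0 + w.im * 1 = w.im by ring]

end Pool.Agent.Work.MP_2738db_nt_Y.helper76
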