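import Pool.Agent.Work.MP_2738db_nt_Y.Interface5

/-!
Block KUM (helper76): from ideals to numbers.
-/

set_option autoImplicit false

namespace Pool.Agent.Work.MP_2738db_nt_Y.helper76

open Finset NumberField Polynomial
open Pool.Agent.Work.MP_2738db_nt_A (HB)
open Pool.Agent.Work.MP_2738db_nt_Y

namespace KUM

variable {K : Type} [Field K] [NumberField K]

/-- orders of roots of unity divide `(2 D)!` -/
lemma dvd_fact (m D : ℕ) (hm : 0 < m) (h : Nat.totient m ≤ D) : m ∣ (2 * D).factorial := by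
  rw [Nat.dvd_iff_prime_pow_dvd_dvd]
  intro p k hp hpk
  rcases Nat.eq_zero_or_pos k with hk | hk
  · subst hk
    simp
  · apply Nat.dvd_factorial (pow_pos hp.pos k)
    have h1 : Nat.totient (p ^ k) ≤ D :=
      le_trans (Nat.le_of_dvd (Nat.totient_pos.2 hm) (Nat.totient_dvd_of_dvd hpk)) h
    rw [Nat.totient_prime_pow hp hk] at h1
    have h2 : p ^ k = p ^ (k - 1) * p := by
      rw [← pow_succ]
      congr 1
      omega
    have h3 : p ≤ 2 * (p - 1) := by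
      have := hp.two_le
      omega
    calc p ^ k = p ^ (k - 1) * p := h2
      _ ≤ p ^ (k - 1) * (2 * (p - 1)) := Nat.mul_le_mul_left _ h3
      _ = 2 * (p ^ (k - 1) * (p - 1)) := by ring
      _ ≤ 2 * D := Nat.mul_le_mul_left _ h1

/-- Kronecker's theorem with an explicit exponent -/
lemma kron (u : 𝓞 K) (hu : ∀ φ : K →+* ℂ, ‖φ (u : K)‖ = 1) :
    u ^ (2 * Module.finrank ℚ K).factorial = 1 := by
  obtain ⟨n, hn, hpow⟩ := NumberField.Embeddings.pow_eq_one_of_norm_eq_one K ℂ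
    (x := (u : K)) (RingOfIntegers.isIntegral_coe u) hu
  have hfin : IsOfFinOrder (u : K) := isOfFinOrder_iff_pow_eq_one.2 ⟨n, hn, hpow⟩
  set m := orderOf (u : K) with hm
  have hmpos : 0 < m := hfin.orderOf_pos
  have hprim : IsPrimitiveRoot (u : K) m := IsPrimitiveRoot.orderOf (u : K)
  have htot : Nat.totient m ≤ Module.finrank ℚ K := by
    have h1 := cyclotomic_eq_minpoly_rat hprim hmpos
    have h2 : (minpoly ℚ (u : K)).natDegree ≤ Module.finrank ℚ K := minpoly.natDegree_le (u : K)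
    rw [← h1, natDegree_cyclotomic] at h2
    exact h2
  have hdvd := dvd_fact m _ hmpos htot
  have h3 : ((u ^ (2 * Module.finrank ℚ K).factorial : 𝓞 K) : K) = ((1 : 𝓞 K) : K) := by
    push_cast
    exact orderOf_dvd_iff_pow_eq_one.1 hdvd
  exact RingOfIntegers.ext h3

lemma fact_le (D : ℕ) (H : ℝ) (hH : 2 ≤ H) (hD : (D : ℝ) ≤ H) :
    ((2 * D).factorial : ℝ) ≤ Real.exp (H ^ 4) := by
  have hH0 : 0 < H := by linarith
  rcases Nat.eq_zero_or_pos D with h0 | hpos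
  · subst h0
    simp only [mul_zero, Nat.factorial_zero, Nat.cast_one]
    exact Real.one_le_exp (by positivity)
  · have h1 : ((2 * D).factorial : ℝ) ≤ ((2 * D : ℕ) : ℝ) ^ (2 * D) := by
      exact_mod_cast Nat.factorial_le_pow (2 * D)
    have h2 : ((2 * D : ℕ) : ℝ) ≤ Real.exp (2 * H) := by
      have := Real.add_one_le_exp (2 * H)
      push_cast
      linarith
    calc ((2 * D).factorial : ℝ) ≤ ((2 * D : ℕ) : ℝ) ^ (2 * D) := h1
      _ ≤ (Real.exp (2 * H)) ^ (2 * D) := pow_le_pow_left₀ (Nat.cast_nonneg _) h2 _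
      _ = Real.exp (((2 * D : ℕ) : ℝ) * (2 * H)) := by rw [← Real.exp_nat_mul]
      _ ≤ Real.exp (H ^ 4) := by
        apply Real.exp_le_exp.2
        push_cast
        nlinarith [mul_nonneg hH0.le (sub_nonneg.2 hD), pow_pos hH0 3, mul_pos hH0 hH0,
          mul_nonneg (mul_nonneg hH0.le hH0.le) (sub_nonneg.2 hH),
          mul_nonneg (mul_nonneg hH0.le hH0.le) (mul_nonneg (sub_nonneg.2 hH) (by linarith : 0 ≤ H + 2))]

lemma hb_pow (x : 𝓞 K) (A : ℝ) (n : ℕ) (h : HB K x A) : HB K (x ^ n) (n * A) := by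
  intro v
  have h1 := h v
  have h2 : v ((x ^ n : 𝓞 K) : K) = (v (x : K)) ^ n := by
    push_cast
    rw [map_pow]
  rw [h2, Real.exp_nat_mul]
  exact pow_le_pow_left₀ (apply_nonneg _ _) h1 n

lemma hb_mono (x : 𝓞 K) (A B : ℝ) (h : HB K x A) (hAB : A ≤ B) : HB K x B :=
  fun v => le_trans (h v) (Real.exp_le_exp.2 hAB)

end KUM

open KUM

theorem kum (hBgn : Stmt_Bgn) : Stmt_Kum := by
  obtain ⟨C₀, hC₀, hB⟩ := hBgn
  refine ⟨C₀ + 6, by linarith, ?_⟩
  intro K _ _ τ H z c k 𝔇 𝔞 hτ hH hD hdisc hz hzI h𝔇 h𝔞c hc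
  have hH0 : 0 < H := by linarith
  have hH1 : 1 ≤ H := by linarith
  have hc0 : (c : 𝓞 K) ≠ 0 := by
    have : c ≠ 0 := by omega
    exact_mod_cast this
  have hcI : Ideal.span {(c : 𝓞 K)} ≠ ⊥ := by
    rw [Ne, Ideal.span_singleton_eq_bot]
    exact hc0
  have h𝔞0 : 𝔞 ≠ ⊥ := by
    rintro rfl
    obtain ⟨J, hJ⟩ := h𝔞c
    rw [Ideal.bot_mul] at hJ
    exact hcI hJ
  obtain ⟨s₀, α₀, hs1, hsle, hspan, hHB⟩ := hB K H 𝔞 h𝔞0 hH hD hdisc
  have hα₀ : α₀ ≠ 0 := by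
    rintro rfl
    have h1 : 𝔞 ^ s₀ = ⊥ := by
      rw [← hspan]
      simp
    have h2 : 𝔞 ≠ 0 := by
      rw [Ne, Ideal.zero_eq_bot]
      exact h𝔞0
    exact pow_ne_zero s₀ h2 (by rw [h1, Ideal.zero_eq_bot])
  have hτα₀ : τ α₀ ≠ 0 := by
    rw [Ne, EmbeddingLike.map_eq_zero_iff]
    exact hα₀
  have hτz : τ z ≠ 0 := by
    rw [Ne, EmbeddingLike.map_eq_zero_iff]
    exact hz
  -- the unit
  have hI1 : Ideal.span {z ^ s₀ * (τ α₀) ^ k} = Ideal.span {(τ z) ^ s₀ * α₀ ^ k} := by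
    have e1 : Ideal.span {τ α₀} = (𝔞 ^ s₀).map (τ : 𝓞 K →+* 𝓞 K) := by
      rw [← hspan, Ideal.map_span, Set.image_singleton]
      rfl
    have e2 : Ideal.span {τ z} = (𝔇 * 𝔞 ^ k).map (τ : 𝓞 K →+* 𝓞 K) := by
      rw [← hzI, Ideal.map_span, Set.image_singleton]
      rfl
    rw [← Ideal.span_singleton_mul_span_singleton, ← Ideal.span_singleton_mul_span_singleton,
      ← Ideal.span_singleton_pow, ← Ideal.span_singleton_pow, ← Ideal.span_singleton_pow,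
      ← Ideal.span_singleton_pow, e1, e2, hspan, hzI, Ideal.map_mul, Ideal.map_pow, Ideal.map_pow, h𝔇]
    ring
  obtain ⟨u, hu⟩ := Ideal.span_singleton_eq_span_singleton.1 hI1
  -- hu : z ^ s₀ * τ α₀ ^ k * u = τ z ^ s₀ * α₀ ^ k
  have hnorm : ∀ φ : K →+* ℂ, ‖φ ((u : 𝓞 K) : K)‖ = 1 := by
    intro φ
    have hn : ∀ w : 𝓞 K, ‖φ ((τ w : 𝓞 K) : K)‖ = ‖φ (w : K)‖ := by
      intro w
      rw [hτ φ w]
      exact Complex.norm_conj _
    have h1 := congrArg (fun w : 𝓞 K => ‖φ (w : K)‖) hu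
    simp only [map_mul, map_pow, norm_mul, norm_pow, hn] at h1
    have hz' : ‖φ (z : K)‖ ≠ 0 := by
      rw [norm_ne_zero_iff]
      intro h
      exact hz (RingOfIntegers.coe_eq_zero_iff.1 ((map_eq_zero φ).1 h))
    have hα' : ‖φ (α₀ : K)‖ ≠ 0 := by
      rw [norm_ne_zero_iff]
      intro h
      exact hα₀ (RingOfIntegers.coe_eq_zero_iff.1 ((map_eq_zero φ).1 h))
    have h2 : ‖φ (z : K)‖ ^ s₀ * ‖φ (α₀ : K)‖ ^ k ≠ 0 :=
      mul_ne_zero (pow_ne_zero _ hz') (pow_ne_zero _ hα')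
    exact mul_left_cancel₀ h2 (by rw [mul_one]; exact h1)
  have hkr := kron ((u : 𝓞 K)) hnorm
  set W := (2 * Module.finrank ℚ K).factorial with hW
  have hWpos : 1 ≤ W := Nat.succ_le_of_lt (Nat.factorial_pos _)
  have hWle : (W : ℝ) ≤ Real.exp (H ^ 4) := fact_le _ H hH hD
  -- sizes
  have hlogc : Real.log 2 ≤ Real.log c := by
    apply Real.log_le_log (by norm_num)
    exact_mod_cast hc
  have hlog2 : (1 / 2 : ℝ) ≤ Real.log 2 := by
    have := Real.log_two_gt_d9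
    linarith
  have hlogc0 : 0 < Real.log c := by linarith
  have hN : (1 + Real.log (Ideal.absNorm 𝔞)) ≤ 2 * H * Real.log c := by
    have h1 : Ideal.absNorm 𝔞 ∣ c ^ Module.finrank ℚ K := by
      have h2 : Ideal.absNorm 𝔞 ∣ Ideal.absNorm (Ideal.span {(c : 𝓞 K)}) :=
        Ideal.absNorm_dvd_absNorm_of_le (Ideal.le_of_dvd h𝔞c)
      rwa [Ideal.absNorm_span_natCast, RingOfIntegers.rank] at h2
    have h2 : Ideal.absNorm 𝔞 ≤ c ^ Module.finrank ℚ K :=
      Nat.le_of_dvd (pow_pos (by omega) _) h1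
    have h3 : 0 < Ideal.absNorm 𝔞 := Nat.pos_of_ne_zero (by
      rw [Ne, Ideal.absNorm_eq_zero_iff]
      exact h𝔞0)
    have h4 : Real.log (Ideal.absNorm 𝔞) ≤ Module.finrank ℚ K * Real.log c := by
      rw [← Real.log_pow]
      apply Real.log_le_log (by exact_mod_cast h3)
      exact_mod_cast h2
    have h5 : (Module.finrank ℚ K : ℝ) * Real.log c ≤ H * Real.log c :=
      mul_le_mul_of_nonneg_right hD hlogc0.le
    nlinarith
  refine ⟨s₀ * W, α₀ ^ W, ?_, ?_, pow_ne_zero _ hα₀, ?_, ?_, ?_⟩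
  · exact Nat.mul_pos (by omega) hWpos
  · push_cast
    have h1 : (s₀ : ℝ) * W ≤ Real.exp (H ^ C₀) * Real.exp (H ^ 4) :=
      mul_le_mul hsle hWle (Nat.cast_nonneg _) (Real.exp_pos _).le
    refine le_trans h1 ?_
    rw [← Real.exp_add]
    apply Real.exp_le_exp.2
    have e1 : H ^ (C₀ + 6) = H ^ C₀ * H ^ (6 : ℝ) := Real.rpow_add hH0 _ _
    have e2 : H ^ (C₀ + 6) = H ^ (C₀ + 2) * H ^ (4 : ℝ) := by
      rw [← Real.rpow_add hH0]
      congr 1
      ring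
    have e3 : (1 : ℝ) ≤ H ^ C₀ := Real.one_le_rpow hH1 (by linarith)
    have e4 : (2 : ℝ) ≤ H ^ (6 : ℝ) := by
      have : H ^ (6 : ℝ) = H ^ (6 : ℕ) := by exact_mod_cast Real.rpow_natCast H 6
      rw [this]
      calc (2 : ℝ) ≤ 2 ^ 6 := by norm_num
        _ ≤ H ^ 6 := pow_le_pow_left₀ (by norm_num) hH 6
    have e5 : (2 : ℝ) ≤ H ^ (C₀ + 2) := by
      calc (2 : ℝ) ≤ H := hH
        _ = H ^ (1 : ℝ) := (Real.rpow_one H).symm
        _ ≤ H ^ (C₀ + 2) := Real.rpow_le_rpow_of_exponent_le hH1 (by linarith)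
    have e6 : H ^ (4 : ℝ) = H ^ (4 : ℕ) := by exact_mod_cast Real.rpow_natCast H 4
    have e7 : (0 : ℝ) < H ^ (4 : ℕ) := by positivity
    rw [e6] at e2
    nlinarith
  · rw [← Ideal.span_singleton_pow, hspan, ← pow_mul]
  · have h1 := hb_pow α₀ _ W hHB
    refine hb_mono _ _ _ h1 ?_
    have h2 : (W : ℝ) * (Real.exp (H ^ C₀) * (1 + Real.log (Ideal.absNorm 𝔞))) ≤
        Real.exp (H ^ 4) * (Real.exp (H ^ C₀) * (2 * H * Real.log c)) := by
      apply mul_le_mul hWle _ _ (Real.exp_pos _).le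
      · exact mul_le_mul_of_nonneg_left hN (Real.exp_pos _).le
      · apply mul_nonneg (Real.exp_pos _).le
        have : 0 ≤ Real.log (Ideal.absNorm 𝔞 : ℝ) := Real.log_natCast_nonneg _
        linarith
    refine le_trans h2 ?_
    have h3 : 2 * H ≤ Real.exp (2 * H) := by
      have := Real.add_one_le_exp (2 * H)
      linarith
    have h4 : Real.exp (H ^ 4) * (Real.exp (H ^ C₀) * (2 * H * Real.log c)) ≤
        Real.exp (H ^ 4) * (Real.exp (H ^ C₀) * (Real.exp (2 * H) * Real.log c)) := by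
      gcongr
    refine le_trans h4 ?_
    have h5 : Real.exp (H ^ 4) * (Real.exp (H ^ C₀) * (Real.exp (2 * H) * Real.log c)) =
        Real.exp (H ^ 4 + H ^ C₀ + 2 * H) * Real.log c := by
      rw [Real.exp_add, Real.exp_add]
      ring
    rw [h5]
    apply mul_le_mul_of_nonneg_right _ hlogc0.le
    apply Real.exp_le_exp.2
    have e1 : H ^ (C₀ + 6) = H ^ C₀ * H ^ (6 : ℝ) := Real.rpow_add hH0 _ _
    have e2 : H ^ (C₀ + 6) = H ^ (C₀ + 2) * H ^ (4 : ℝ) := by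
      rw [← Real.rpow_add hH0]
      congr 1
      ring
    have e3 : (1 : ℝ) ≤ H ^ C₀ := Real.one_le_rpow hH1 (by linarith)
    have e4 : (8 : ℝ) ≤ H ^ (6 : ℝ) := by
      have : H ^ (6 : ℝ) = H ^ (6 : ℕ) := by exact_mod_cast Real.rpow_natCast H 6
      rw [this]
      calc (8 : ℝ) ≤ 2 ^ 6 := by norm_num
        _ ≤ H ^ 6 := pow_le_pow_left₀ (by norm_num) hH 6
    have e5 : (8 : ℝ) ≤ H ^ (C₀ + 2) := by
      calc (8 : ℝ) = 2 ^ 3 := by norm_num
        _ ≤ H ^ 3 := pow_le_pow_left₀ (by norm_num) hH 3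
        _ = H ^ (3 : ℝ) := by exact_mod_cast (Real.rpow_natCast H 3).symm
        _ ≤ H ^ (C₀ + 2) := Real.rpow_le_rpow_of_exponent_le hH1 (by linarith)
    have e6 : H ^ (4 : ℝ) = H ^ (4 : ℕ) := by exact_mod_cast Real.rpow_natCast H 4
    have e7 : 2 * H ≤ H ^ (4 : ℕ) := by
      have : (2 : ℝ) ≤ H ^ 3 := by
        calc (2 : ℝ) ≤ 2 ^ 3 := by norm_num
          _ ≤ H ^ 3 := pow_le_pow_left₀ (by norm_num) hH 3
      nlinarith
    have e8 : (0 : ℝ) < H ^ (4 : ℕ) := by positivity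
    rw [e6] at e2
    nlinarith
  · have h1 : (z ^ s₀ * τ α₀ ^ k) ^ W = (τ z ^ s₀ * α₀ ^ k) ^ W := by
      rw [← hu, mul_pow (z ^ s₀ * τ α₀ ^ k) (u : 𝓞 K) W, hkr, mul_one]
    rw [map_pow, ← pow_mul, ← pow_mul, mul_comm W k, pow_mul z, pow_mul (τ α₀), ← mul_pow,
      pow_mul (τ z), pow_mul α₀, ← mul_pow]
    exact h1

end Pool.Agent.Work.MP_2738db_nt_Y.helper76
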