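import Pool.Agent.Work.MP_2738db_nt_Y.Interface5
import Pool.Agent.Work.MP_2738db_nt_A_helper87.NRM

/-!
Block LTK (helper76): `P`-adic valuation of `β₁ ^ n - β₂ ^ n`.
-/

set_option autoImplicit false

namespace Pool.Agent.Work.MP_2738db_nt_Y.helper76

open Finset NumberField
open Pool.Agent.Work.MP_2738db_nt_A (HB)
open Pool.Agent.Work.MP_2738db_nt_Y

namespace LTK

section ring

variable {R : Type} [CommRing R] [IsDedekindDomain R] (P : Ideal R)

/-- the valuation -/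
noncomputable def vv (x : R) : ℕ∞ := emultiplicity P (Ideal.span {x})

lemma mem_pow_iff (x : R) (k : ℕ) : x ∈ P ^ k ↔ (k : ℕ∞) ≤ vv P x := by
  unfold vv
  rw [← pow_dvd_iff_le_emultiplicity, Ideal.dvd_span_singleton]

variable {P}

lemma vv_mul (hP : P.IsPrime) (hP0 : P ≠ ⊥) (x y : R) : vv P (x * y) = vv P x + vv P y := by
  unfold vv
  rw [← Ideal.span_singleton_mul_span_singleton]
  exact emultiplicity_mul (Ideal.prime_of_isPrime hP0 hP)

lemma vv_zero_of_notMem {x : R} (hx : x ∉ P) : vv P x = 0 := by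
  by_contra h
  apply hx
  have h1 : (1 : ℕ∞) ≤ vv P x := ENat.one_le_iff_ne_zero.2 h
  have := (mem_pow_iff P x 1).2 (by exact_mod_cast h1)
  rwa [pow_one] at this

lemma vv_ne_top (hP : P.IsPrime) {x : R} (hx : x ≠ 0) : vv P x ≠ ⊤ := by
  unfold vv
  rw [← finiteMultiplicity_iff_emultiplicity_ne_top]
  apply FiniteMultiplicity.of_not_isUnit
  · rw [Ideal.isUnit_iff]
    exact hP.ne_top
  · rw [Ne, Ideal.zero_eq_bot, Ideal.span_singleton_eq_bot]
    exact hx

/-- the cofactor of `u - v` in `u ^ n - v ^ n` -/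
lemma cof (I : Ideal R) (u v : R) (n : ℕ) (h : u - v ∈ I) :
    (∑ i ∈ range n, u ^ i * v ^ (n - 1 - i)) - n * v ^ (n - 1) ∈ I := by
  have h1 : Ideal.Quotient.mk I u = Ideal.Quotient.mk I v := Ideal.Quotient.eq.2 h
  rw [← Ideal.Quotient.eq, map_sum, map_mul, map_pow, map_natCast, ← geom_sum₂_self]
  apply Finset.sum_congr rfl
  intro i _
  rw [map_mul, map_pow, map_pow, h1]

lemma stepA (hP : P.IsPrime) (hP0 : P ≠ ⊥) (u v : R) (m : ℕ) (hm : (m : R) ∉ P)
    (h : u - v ∈ P) (hv : v ∉ P) : vv P (u ^ m - v ^ m) = vv P (u - v) := by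
  rw [← (Commute.all u v).geom_sum₂_mul m, vv_mul hP hP0]
  have h1 : (∑ i ∈ range m, u ^ i * v ^ (m - 1 - i)) ∉ P := by
    intro hs
    have h2 := P.sub_mem hs (cof P u v m h)
    rw [sub_sub_cancel] at h2
    rcases hP.mem_or_mem h2 with h3 | h3
    · exact hm h3
    · exact hv (hP.mem_of_pow_mem _ h3)
  rw [vv_zero_of_notMem h1, zero_add]

lemma stepB (hP : P.IsPrime) (hP0 : P ≠ ⊥) (u v : R) (r e : ℕ) (hr : vv P (r : R) ≤ e)
    (h : u - v ∈ P ^ (e + 1)) (hv : v ∉ P) :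
    vv P (u ^ r - v ^ r) ≤ vv P (u - v) + e := by
  rw [← (Commute.all u v).geom_sum₂_mul r, vv_mul hP hP0, add_comm]
  apply add_le_add le_rfl
  by_contra hcon
  push Not at hcon
  have h1 : (∑ i ∈ range r, u ^ i * v ^ (r - 1 - i)) ∈ P ^ (e + 1) := by
    rw [mem_pow_iff]
    push_cast
    exact Order.add_one_le_of_lt hcon
  have h2 := (P ^ (e + 1)).sub_mem h1 (cof _ u v r h)
  rw [sub_sub_cancel, mem_pow_iff, vv_mul hP hP0,
    vv_zero_of_notMem (fun h3 => hv (hP.mem_of_pow_mem _ h3)), add_zero] at h2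
  have h3 := le_trans h2 hr
  have h4 : e + 1 ≤ e := by exact_mod_cast h3
  omega

lemma stepP (hP : P.IsPrime) (hP0 : P ≠ ⊥) (r e : ℕ) (hr : vv P (r : R) ≤ e) (k : ℕ) :
    ∀ u v : R, u - v ∈ P ^ (e + 1) → v ∉ P →
      vv P (u ^ (r ^ k) - v ^ (r ^ k)) ≤ vv P (u - v) + (k * e : ℕ) := by
  induction k with
  | zero =>
    intro u v _ _
    simp
  | succ k ih =>
    intro u v h hv
    have h1 : u ^ (r ^ k) - v ^ (r ^ k) ∈ P ^ (e + 1) := by
      obtain ⟨w, hw⟩ := sub_dvd_pow_sub_pow u v (r ^ k)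
      rw [hw]
      exact Ideal.mul_mem_right _ _ h
    have h2 : v ^ (r ^ k) ∉ P := fun h3 => hv (hP.mem_of_pow_mem _ h3)
    have h3 := stepB hP hP0 (u ^ (r ^ k)) (v ^ (r ^ k)) r e hr h1 h2
    rw [← pow_mul, ← pow_mul, ← pow_succ] at h3
    refine le_trans h3 ?_
    refine le_trans (add_le_add (ih u v h hv) le_rfl) ?_
    rw [add_assoc]
    apply add_le_add le_rfl
    push_cast
    rw [add_mul, one_mul]

/-- lifting the exponent -/
lemma lte (hP : P.IsPrime) (hP0 : P ≠ ⊥) (r e : ℕ) (hrp : r.Prime) (hrP : (r : R) ∈ P)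
    (hr : vv P (r : R) ≤ e) (u v : R) (h : u - v ∈ P ^ (e + 1)) (hv : v ∉ P) (n : ℕ)
    (hn : 1 ≤ n) : vv P (u ^ n - v ^ n) ≤ vv P (u - v) + (padicValNat r n * e : ℕ) := by
  obtain ⟨m, hm, hnm⟩ : ∃ m : ℕ, ¬ r ∣ m ∧ n = r ^ padicValNat r n * m := by
    haveI : Fact r.Prime := ⟨hrp⟩
    refine ⟨n / r ^ padicValNat r n, ?_, ?_⟩
    · rw [← Nat.factorization_def n hrp]
      exact Nat.not_dvd_ordCompl hrp (by omega)
    · exact (Nat.mul_div_cancel' pow_padicValNat_dvd).symm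
  set k := padicValNat r n with hk
  have hmP : (m : R) ∉ P := by
    intro hmm
    have hcop : Nat.Coprime r m := (Nat.Prime.coprime_iff_not_dvd hrp).2 hm
    have h1 : IsCoprime (r : R) (m : R) := by
      have := Nat.isCoprime_iff_coprime.2 hcop
      have h2 := this.map (Int.castRingHom R)
      simpa using h2
    obtain ⟨a, b, hab⟩ := h1
    apply hP.ne_top
    rw [Ideal.eq_top_iff_one, ← hab]
    exact P.add_mem (Ideal.mul_mem_left _ _ hrP) (Ideal.mul_mem_left _ _ hmm)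
  have h1 : u ^ (r ^ k) - v ^ (r ^ k) ∈ P := by
    obtain ⟨w, hw⟩ := sub_dvd_pow_sub_pow u v (r ^ k)
    rw [hw]
    exact Ideal.mul_mem_right _ _ (Ideal.pow_le_self (by omega) h)
  have h2 : v ^ (r ^ k) ∉ P := fun h3 => hv (hP.mem_of_pow_mem _ h3)
  have h3 := stepA hP hP0 (u ^ (r ^ k)) (v ^ (r ^ k)) m hmP h1 h2
  rw [← pow_mul, ← pow_mul, ← hnm] at h3
  rw [h3]
  exact stepP hP hP0 r e hr k u v h hv

/-- powers of elements which are `1` modulo `P` -/
lemma cong (hP : P.IsPrime) (r : ℕ) (hrP : (r : R) ∈ P) (a : R) (ha : a - 1 ∈ P) (s : ℕ) :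
    a ^ (r ^ s) - 1 ∈ P ^ (s + 1) := by
  induction s with
  | zero => simpa using ha
  | succ s ih =>
    set b := a ^ (r ^ s) with hb
    have hbP : b - 1 ∈ P := Ideal.pow_le_self (by omega) ih
    have h1 : a ^ (r ^ (s + 1)) - 1 = (∑ i ∈ range r, b ^ i * 1 ^ (r - 1 - i)) * (b - 1) := by
      rw [(Commute.all b 1).geom_sum₂_mul r, one_pow, pow_succ, pow_mul]
    rw [h1, pow_succ' P (s + 1)]
    apply Ideal.mul_mem_mul _ ih
    have h2 := cof P b 1 r hbP
    rw [one_pow, mul_one] at h2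
    have h3 := P.add_mem h2 hrP
    rwa [sub_add_cancel] at h3

end ring

variable {K : Type} [Field K] [NumberField K]

lemma hb_pow' (x : 𝓞 K) (A : ℝ) (n : ℕ) (h : HB K x A) : HB K (x ^ n) (n * A) := by
  intro v
  have h1 := h v
  have h2 : v ((x ^ n : 𝓞 K) : K) = (v (x : K)) ^ n := by
    push_cast
    rw [map_pow]
  rw [h2, Real.exp_nat_mul]
  exact pow_le_pow_left₀ (apply_nonneg _ _) h1 n

lemma hb_sub (x y : 𝓞 K) (A : ℝ) (hx : HB K x A) (hy : HB K y A) : HB K (x - y) (A + 1) := by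
  intro v
  have h1 := hx v
  have h2 := hy v
  have h3 : v ((x - y : 𝓞 K) : K) ≤ v (x : K) + v (y : K) := by
    have : ((x - y : 𝓞 K) : K) = (x : K) - (y : K) := by push_cast; ring
    rw [this]
    have h4 := v.1.add_le (x : K) (-(y : K))
    rw [v.1.map_neg, ← sub_eq_add_neg] at h4
    exact h4
  rw [Real.exp_add]
  have h4 : (2 : ℝ) ≤ Real.exp 1 := by
    have := Real.add_one_le_exp (1 : ℝ)
    linarith
  nlinarith [Real.exp_pos A]

/-- a rational prime in `P` -/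
lemma exists_prime (P : Ideal (𝓞 K)) (hP : P.IsPrime) (hP0 : P ≠ ⊥) :
    ∃ r : ℕ, r.Prime ∧ (r : 𝓞 K) ∈ P := by
  have h0 : Ideal.absNorm P ≠ 0 := by
    rw [Ne, Ideal.absNorm_eq_zero_iff]
    exact hP0
  have h1 : ((Ideal.absNorm P : ℕ) : 𝓞 K) ∈ P := Ideal.absNorm_mem P
  have key : ∀ n : ℕ, n ≠ 0 → (n : 𝓞 K) ∈ P → ∃ r : ℕ, r.Prime ∧ (r : 𝓞 K) ∈ P := by
    intro n
    induction n using Nat.strong_induction_on with
    | _ n ih =>
      intro hn hnP
      rcases Nat.lt_or_ge n 2 with h | h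
      · exfalso
        have : n = 1 := by omega
        subst this
        apply hP.ne_top
        rw [Ideal.eq_top_iff_one]
        simpa using hnP
      · obtain ⟨p, hp, m, hm⟩ := Nat.exists_prime_and_dvd (by omega : n ≠ 1)
        have h3 : (p : 𝓞 K) * (m : 𝓞 K) ∈ P := by
          rw [← Nat.cast_mul, ← hm]
          exact hnP
        rcases hP.mem_or_mem h3 with h4 | h4
        · exact ⟨p, hp, h4⟩
        · refine ih m ?_ ?_ h4
          · have := hp.two_le
            have hm0 : 0 < m := by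
              rcases Nat.eq_zero_or_pos m with h | h
              · subst h
                simp at hm
                omega
              · exact h
            nlinarith
          · rintro rfl
            simp at hm
            omega
  exact key _ h0 h1

/-- Fermat's little theorem -/
lemma fermat (P : Ideal (𝓞 K)) (hP : P.IsPrime) (hP0 : P ≠ ⊥) (b : 𝓞 K) (hb : b ∉ P) :
    b ^ (Ideal.absNorm P - 1) - 1 ∈ P := by
  haveI : P.IsMaximal := hP.isMaximal hP0
  letI : Field (𝓞 K ⧸ P) := Ideal.Quotient.field P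
  haveI : Finite (𝓞 K ⧸ P) := Ideal.finiteQuotientOfFreeOfNeBot P hP0
  letI : Fintype (𝓞 K ⧸ P) := Fintype.ofFinite _
  have hcard : Ideal.absNorm P = Fintype.card (𝓞 K ⧸ P) := by
    rw [Ideal.absNorm_apply, Submodule.cardQuot_apply, Nat.card_eq_fintype_card]
  rw [← Ideal.Quotient.eq, map_pow, map_one, hcard]
  apply FiniteField.pow_card_sub_one_eq_one
  rw [Ne, Ideal.Quotient.eq_zero_iff_mem]
  exact hb

end LTK

open LTK

theorem ltk : Stmt_Ltk := by
  intro K _ _ P hP hP0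
  obtain ⟨r, hrp, hrP⟩ := exists_prime P hP hP0
  have hr0 : (r : 𝓞 K) ≠ 0 := by exact_mod_cast hrp.ne_zero
  obtain ⟨e, he⟩ := ENat.ne_top_iff_exists.1 (vv_ne_top hP hr0)
  have hre : vv P (r : 𝓞 K) ≤ e := he.ge
  have hN2 : 2 ≤ Ideal.absNorm P := by
    have h0 : Ideal.absNorm P ≠ 0 := by
      rw [Ne, Ideal.absNorm_eq_zero_iff]
      exact hP0
    have h1 : Ideal.absNorm P ≠ 1 := by
      rw [Ne, Ideal.absNorm_eq_one_iff]
      exact hP.ne_top
    omega
  set L := (Ideal.absNorm P - 1) * r ^ e with hL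
  have hLpos : 1 ≤ L := Nat.mul_pos (by omega) (pow_pos hrp.pos _)
  have hL0 : (L : 𝓞 K) ≠ 0 := by
    have : L ≠ 0 := by omega
    exact_mod_cast this
  obtain ⟨c₁, hc₁⟩ := ENat.ne_top_iff_exists.1 (vv_ne_top hP hL0)
  set D := Module.finrank ℚ K with hD
  have hone : ∀ b : 𝓞 K, b ∉ P → b ^ L - 1 ∈ P ^ (e + 1) := by
    intro b hb
    rw [hL, pow_mul]
    exact cong hP r hrP _ (fermat P hP hP0 b hb) e
  refine ⟨1 + c₁ + 2 * D * (L + 1) + 2 * e, ?_, ?_⟩
  · have h1 : (0 : ℝ) ≤ (c₁ : ℝ) := Nat.cast_nonneg _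
    have h2 : (0 : ℝ) ≤ 2 * (D : ℝ) * ((L : ℝ) + 1) := by positivity
    have h3 : (0 : ℝ) ≤ 2 * (e : ℝ) := by positivity
    linarith
  · intro β₁ β₂ n M A hβ₁ hβ₂ hn hA hB₁ hB₂ hne hM
    have hlog : 0 ≤ Real.log n := Real.log_natCast_nonneg n
    have hAn : 1 ≤ A * (1 + Real.log n) := by nlinarith
    have hD0 : (0 : ℝ) ≤ (D : ℝ) := Nat.cast_nonneg _
    have hLr : (0 : ℝ) ≤ (L : ℝ) := Nat.cast_nonneg _
    have he0 : (0 : ℝ) ≤ (e : ℝ) := Nat.cast_nonneg _
    have hc0 : (0 : ℝ) ≤ (c₁ : ℝ) := Nat.cast_nonneg _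
    have hdiv : (β₁ ^ n) ^ L - (β₂ ^ n) ^ L ∈ P ^ M := by
      obtain ⟨w, hw⟩ := sub_dvd_pow_sub_pow (β₁ ^ n) (β₂ ^ n) L
      rw [hw]
      exact Ideal.mul_mem_right _ _ hM
    rcases eq_or_ne (β₁ ^ L) (β₂ ^ L) with heq | hneq
    · -- `(β₁ ^ n) ^ L = (β₂ ^ n) ^ L`
      have h1 : (β₁ ^ n) ^ L = (β₂ ^ n) ^ L := by
        rw [← pow_mul, mul_comm, pow_mul, heq, ← pow_mul, mul_comm, pow_mul]
      have h2 : (∑ i ∈ range L, (β₁ ^ n) ^ i * (β₂ ^ n) ^ (L - 1 - i)) = 0 := by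
        have h3 := (Commute.all (β₁ ^ n) (β₂ ^ n)).geom_sum₂_mul L
        rw [h1, sub_self] at h3
        rcases mul_eq_zero.1 h3 with h4 | h4
        · exact h4
        · exact absurd (sub_eq_zero.1 h4) hne
      have h3 := cof (P ^ M) (β₁ ^ n) (β₂ ^ n) L hM
      rw [h2, zero_sub, neg_mem_iff, mem_pow_iff, vv_mul hP hP0,
        vv_zero_of_notMem (fun h5 => hβ₂ (hP.mem_of_pow_mem _ (hP.mem_of_pow_mem _ h5))),
        add_zero, ← hc₁] at h3
      have h4 : M ≤ c₁ := by exact_mod_cast h3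
      have h5 : (M : ℝ) ≤ c₁ := by exact_mod_cast h4
      have h6 : (c₁ : ℝ) ≤ (1 + c₁ + 2 * D * (L + 1) + 2 * e) * 1 := by
        have h2 : (0 : ℝ) ≤ 2 * (D : ℝ) * ((L : ℝ) + 1) := by positivity
        linarith
      calc (M : ℝ) ≤ (1 + c₁ + 2 * D * (L + 1) + 2 * e) * 1 := h5.trans h6
        _ ≤ (1 + c₁ + 2 * D * (L + 1) + 2 * e) * (A * (1 + Real.log n)) :=
          mul_le_mul_of_nonneg_left hAn (by positivity)
        _ = _ := by ring
    · -- the main case
      set u := β₁ ^ L with hu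
      set v := β₂ ^ L with hv
      have huv : u - v ∈ P ^ (e + 1) := by
        have h1 := (P ^ (e + 1)).sub_mem (hone β₁ hβ₁) (hone β₂ hβ₂)
        rwa [sub_sub_sub_cancel_right] at h1
      have hvP : v ∉ P := fun h => hβ₂ (hP.mem_of_pow_mem _ h)
      have huv0 : u - v ≠ 0 := sub_ne_zero.2 hneq
      obtain ⟨s, hs⟩ := ENat.ne_top_iff_exists.1 (vv_ne_top hP huv0)
      have h1 : (M : ℕ∞) ≤ vv P (u ^ n - v ^ n) := by
        rw [← mem_pow_iff]
        have : u ^ n - v ^ n = (β₁ ^ n) ^ L - (β₂ ^ n) ^ L := by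
          rw [hu, hv, ← pow_mul, ← pow_mul, ← pow_mul, ← pow_mul, mul_comm L n]
        rw [this]
        exact hdiv
      have h2 := le_trans h1 (lte hP hP0 r e hrp hrP hre u v huv hvP n hn)
      rw [← hs] at h2
      have h3 : M ≤ s + padicValNat r n * e := by exact_mod_cast h2
      have hsmem : u - v ∈ P ^ s := by
        rw [mem_pow_iff, ← hs]
      have h4 := Pool.Agent.Work.MP_2738db_nt_A.helper87.stmt_NRM K P s (u - v) (L * A + 1) hP hP0
        huv0 hsmem (hb_sub u v _ (hb_pow' β₁ A L hB₁) (hb_pow' β₂ A L hB₂))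
      have hlog2 : (1 / 2 : ℝ) ≤ Real.log 2 := by
        have := Real.log_two_gt_d9
        linarith
      have hlogN : (1 / 2 : ℝ) ≤ Real.log (Ideal.absNorm P) := by
        refine le_trans hlog2 ?_
        apply Real.log_le_log (by norm_num)
        exact_mod_cast hN2
      have hs0 : (0 : ℝ) ≤ (s : ℝ) := Nat.cast_nonneg _
      have h5 : (s : ℝ) ≤ 2 * (D * (L * A + 1)) := by nlinarith
      have h6 : (padicValNat r n : ℝ) ≤ 2 * Real.log n := by
        have h7 : r ^ padicValNat r n ≤ n := Nat.le_of_dvd (by omega) pow_padicValNat_dvd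
        have h8 : (2 : ℝ) ^ padicValNat r n ≤ n := by
          calc (2 : ℝ) ^ padicValNat r n ≤ (r : ℝ) ^ padicValNat r n :=
              pow_le_pow_left₀ (by norm_num) (by exact_mod_cast hrp.two_le) _
            _ ≤ n := by exact_mod_cast h7
        have h9 := Real.log_le_log (by positivity) h8
        rw [Real.log_pow] at h9
        have h10 : (0 : ℝ) ≤ (padicValNat r n : ℝ) := Nat.cast_nonneg _
        nlinarith
      have h7 : (M : ℝ) ≤ s + padicValNat r n * e := by exact_mod_cast h3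
      have h8 : (M : ℝ) ≤ 2 * (D * (L * A + 1)) + 2 * Real.log n * e := by nlinarith
      have h9 : 2 * (D * (L * A + 1)) ≤ 2 * D * (L + 1) * A := by nlinarith
      have h10 : (2 * D * (L + 1) * A : ℝ) ≤ 2 * D * (L + 1) * (A * (1 + Real.log n)) := by
        apply mul_le_mul_of_nonneg_left _ (by positivity)
        nlinarith
      have h11 : 2 * Real.log n * e ≤ 2 * e * (A * (1 + Real.log n)) := by
        have : Real.log n ≤ A * (1 + Real.log n) := by nlinarith
        nlinarith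
      have h12 : (0 : ℝ) ≤ (1 + c₁) * (A * (1 + Real.log n)) := by positivity
      calc (M : ℝ) ≤ 2 * D * (L + 1) * (A * (1 + Real.log n)) + 2 * e * (A * (1 + Real.log n)) := by
            linarith
        _ ≤ (1 + c₁) * (A * (1 + Real.log n)) + (2 * D * (L + 1) * (A * (1 + Real.log n)) +
            2 * e * (A * (1 + Real.log n))) := by linarith
        _ = _ := by ring

end Pool.Agent.Work.MP_2738db_nt_Y.helper76
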