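import Pool.Agent.Work.MP_2738db_nt_Y.Interface5

/-!
Block RG (helper76): `P`-adic bound for `κ₁ α₁ ^ k - κ₂ α₂ ^ k`.
-/

set_option autoImplicit false

namespace Pool.Agent.Work.MP_2738db_nt_Y.helper76

open Finset NumberField
open Pool.Agent.Work.MP_2738db_nt_A (HB)
open Pool.Agent.Work.MP_2738db_nt_Y

namespace RG

/-- a number which is less than a multiple of its logarithm is bounded -/
lemma log_bound (E k : ℝ) (hE : 1 ≤ E) (hk : 1 ≤ k) (h : k < E * (1 + Real.log k)) :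
    k ≤ 9 * E ^ 2 := by
  have h1 : Real.log k ≤ 2 * Real.sqrt k := by
    have h2 : Real.log k = 2 * Real.log (Real.sqrt k) := by
      rw [Real.log_sqrt (by linarith)]
      ring
    rw [h2]
    have h3 : Real.log (Real.sqrt k) ≤ Real.sqrt k - 1 :=
      Real.log_le_sub_one_of_pos (Real.sqrt_pos.2 (by linarith))
    linarith
  have hs1 : 1 ≤ Real.sqrt k := by
    rw [Real.one_le_sqrt]
    exact hk
  have hs2 : Real.sqrt k ^ 2 = k := Real.sq_sqrt (by linarith)
  set s := Real.sqrt k with hs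
  have h2 : s ^ 2 < E * (3 * s) := by
    rw [hs2]
    calc k < E * (1 + Real.log k) := h
      _ ≤ E * (3 * s) := by
        apply mul_le_mul_of_nonneg_left _ (by linarith)
        linarith
  have h3 : s < 3 * E := by nlinarith
  rw [← hs2]
  nlinarith

end RG

open RG

theorem rg (hTln : Stmt_Tln) (hLtk : Stmt_Ltk) : Stmt_Rg := by
  intro K _ _ P B hP hP0 hB
  obtain ⟨C₁, hC₁, hL⟩ := hLtk K P hP hP0
  set D : ℝ := max 1 (Module.finrank ℚ K : ℝ) with hD
  have hD1 : 1 ≤ D := le_max_left _ _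
  have hD2 : (Module.finrank ℚ K : ℝ) ≤ D := le_max_right _ _
  set Q : ℝ := (Ideal.absNorm P : ℝ) with hQ
  have hQ1 : 1 ≤ Q := by
    have h0 : Ideal.absNorm P ≠ 0 := by
      rw [Ne, Ideal.absNorm_eq_zero_iff]
      exact hP0
    rw [hQ]
    exact_mod_cast Nat.one_le_iff_ne_zero.2 h0
  set E : ℝ := 10 ^ 4 * D ^ 2 * Q * B with hE
  have hE1 : 1 ≤ E := by
    rw [hE]
    have h1 : 1 ≤ D ^ 2 := by nlinarith
    have h2 : 1 ≤ D ^ 2 * Q := by nlinarith
    have h3 : 1 ≤ D ^ 2 * Q * B := by nlinarith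
    nlinarith
  set C₂ : ℝ := 10 ^ 8 * D ^ 4 * Q ^ 2 * B with hC₂
  have hC₂0 : 0 ≤ C₂ := by positivity
  have hlogB : 0 ≤ Real.log B := Real.log_nonneg hB
  refine ⟨C₂ + 9 * E ^ 2 + C₁ * (1 + Real.log B), ?_, ?_⟩
  · have h1 : 1 ≤ C₁ * (1 + Real.log B) := by nlinarith
    have h2 : 0 ≤ 9 * E ^ 2 := by positivity
    linarith
  · intro κ₁ κ₂ α₁ α₂ k M A hκ₁ hκ₂ hα₁ hα₂ hk hA hBκ₁ hBκ₂ hBα₁ hBα₂ hcase hM
    have hkr : (1 : ℝ) ≤ k := by exact_mod_cast hk
    have hlogk : 0 ≤ Real.log k := Real.log_nonneg hkr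
    have hCL : 0 ≤ C₁ * (1 + Real.log B) := by positivity
    have hE2 : 0 ≤ 9 * E ^ 2 := by positivity
    rcases hcase with hcase | ⟨j, hj1, hjB, hjeq, hjne⟩
    · rcases le_or_gt (E * (1 + Real.log k)) k with hbig | hsmall
      · left
        have h1 := hTln K P κ₁ κ₂ α₁ α₂ k M A B D Q hP hP0 hκ₁ hκ₂ hα₁ hα₂ hcase hM hD1 hD2 le_rfl
          hA hB hBα₁ hBα₂ hBκ₁ hBκ₂ hbig
        calc (M : ℝ) ≤ 10 ^ 8 * D ^ 4 * Q ^ 2 * A * B * (1 + Real.log k) ^ 2 := h1
          _ = C₂ * A * (1 + Real.log k) ^ 2 := by rw [hC₂]; ring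
          _ ≤ (C₂ + 9 * E ^ 2 + C₁ * (1 + Real.log B)) * A * (1 + Real.log k) ^ 2 := by
            apply mul_le_mul_of_nonneg_right _ (by positivity)
            apply mul_le_mul_of_nonneg_right _ (by linarith)
            linarith
      · right
        have h1 := log_bound E k hE1 hkr hsmall
        linarith
    · left
      have h1 : α₁ ^ (j * k) - α₂ ^ (j * k) ∈ P ^ M := by
        have h2 : (κ₁ * α₁ ^ k) ^ j - (κ₂ * α₂ ^ k) ^ j ∈ P ^ M := by
          obtain ⟨w, hw⟩ := sub_dvd_pow_sub_pow (κ₁ * α₁ ^ k) (κ₂ * α₂ ^ k) j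
          rw [hw]
          exact Ideal.mul_mem_right _ _ hM
        have h3 : (κ₁ * α₁ ^ k) ^ j - (κ₂ * α₂ ^ k) ^ j =
            κ₂ ^ j * (α₁ ^ (j * k) - α₂ ^ (j * k)) := by
          rw [mul_pow, mul_pow, hjeq, ← pow_mul, ← pow_mul, mul_comm k j]
          ring
        rw [h3] at h2
        haveI := hP
        rcases Ideal.IsPrime.mul_mem_pow P h2 with h4 | h4
        · exact absurd (hP.mem_of_pow_mem _ h4) hκ₂
        · exact h4
      have hjk : 1 ≤ j * k := Nat.mul_pos hj1 hk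
      have h2 := hL α₁ α₂ (j * k) M A hα₁ hα₂ hjk hA hBα₁ hBα₂ hjne h1
      have h3 : Real.log ((j * k : ℕ) : ℝ) ≤ Real.log B + Real.log k := by
        push_cast
        rw [← Real.log_mul (by linarith) (by linarith)]
        apply Real.log_le_log
        · have : (1 : ℝ) ≤ j := by exact_mod_cast hj1
          positivity
        · exact mul_le_mul_of_nonneg_right hjB (by linarith)
      have h4 : 1 + Real.log ((j * k : ℕ) : ℝ) ≤ (1 + Real.log B) * (1 + Real.log k) ^ 2 := by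
        have h5 : (1 + Real.log B) * (1 + Real.log k) ≤ (1 + Real.log B) * (1 + Real.log k) ^ 2 := by
          apply mul_le_mul_of_nonneg_left _ (by linarith)
          nlinarith
        nlinarith [mul_nonneg hlogB hlogk]
      calc (M : ℝ) ≤ C₁ * A * (1 + Real.log ((j * k : ℕ) : ℝ)) := h2
        _ ≤ C₁ * A * ((1 + Real.log B) * (1 + Real.log k) ^ 2) := by
          apply mul_le_mul_of_nonneg_left h4
          positivity
        _ = C₁ * (1 + Real.log B) * A * (1 + Real.log k) ^ 2 := by ring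
        _ ≤ (C₂ + 9 * E ^ 2 + C₁ * (1 + Real.log B)) * A * (1 + Real.log k) ^ 2 := by
          apply mul_le_mul_of_nonneg_right _ (by positivity)
          apply mul_le_mul_of_nonneg_right _ (by linarith)
          linarith

end Pool.Agent.Work.MP_2738db_nt_Y.helper76
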